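import Pool.Agent.helper40.MT.Defs
import Pool.Agent.helper40.MT.Final

/-!
# The monotone triangle polynomial at a reversed row

`α (2n+1; 2n+1, 2n, …, 1) = (-1)^n α (n; 2, 4, …, 2n)` for all `n ≥ 1`.

Proof idea. The number `α (n; k)` is the confluent limit `u → (1, …, 1)` of the wavefunction
`P_k(u) = ∑_σ σ ∏ u_i^(k_i) ∏_{i<j} (1 - u_i + u_i u_j) / (u_j - u_i)` (branching rule in the last
variable). An inhomogeneous version with column parameters `a_1, …, a_N` is evaluated by Lagrange
interpolation in `a_1` as a determinant `det [y^m (1-y)^⌊(r+m)/2⌋]` divided by the Vandermonde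
determinant, in the variables `y = u / (u^2 - u + 1)` and `y = a`. It is symmetric in all these
variables. The parameters `a = 0` give the reversed row and `a = 1` gives the row `2, 4, …, 2n`.
-/

namespace Pool.Agent.Results.MP_cbdfa9_co.ReversedRow

open Pool.Agent.helper40.MT

/-- For every `n` there is exactly one polynomial `α n` which counts the monotone triangles with
bottom row `k` for all strictly increasing integer vectors `k` of length `n`, and
`α (2n+1; 2n+1, 2n, …, 1) = (-1)^n α (n; 2, 4, …, 2n)` for all `n ≥ 1`. -/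
theorem result : ∃ α : (n : ℕ) → MvPolynomial (Fin n) ℚ,
    (∀ (n : ℕ) (p : MvPolynomial (Fin n) ℚ), IsMTPoly n p ↔ p = α n) ∧
    ∀ n : ℕ, 1 ≤ n →
      MvPolynomial.eval (fun i : Fin (2 * n + 1) => ((2 * n + 1 : ℕ) : ℚ) - ((i : ℕ) : ℚ))
          (α (2 * n + 1)) =
        (-1) ^ n * MvPolynomial.eval (fun i : Fin n => 2 * (((i : ℕ) : ℚ) + 1)) (α n) :=
  final

end Pool.Agent.Results.MP_cbdfa9_co.ReversedRow
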